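import Mathlib
set_option autoImplicit false
namespace Pool.Agent.Results.MP_87e037_al.Yes
open Polynomial

/-- tau_i = product over h < i of (X - theta_h). -/
noncomputable def tau {K : Type*} [Field K] (θ : ℕ → K) (i : ℕ) : K[X] :=
  ∏ h ∈ Finset.range i, (X - C (θ h))

/-- rho_i = product over h < i of (X - theta_(d-h)). -/
noncomputable def rho {K : Type*} [Field K] (d : ℕ) (θ : ℕ → K) (i : ℕ) : K[X] :=
  ∏ h ∈ Finset.range i, (X - C (θ (d - h)))

/-- A lowering map on the space V of polynomials of degree at most d. -/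
def Lowering {K : Type*} [Field K] (d : ℕ) (θ : ℕ → K)
    (Ψ : degreeLE K (d : ℕ) →ₗ[K] degreeLE K (d : ℕ)) : Prop :=
  (∀ v : degreeLE K (d : ℕ), (v : K[X]) = tau θ 0 → Ψ v = 0) ∧
  (∀ v : degreeLE K (d : ℕ), (v : K[X]) = rho d θ 0 → Ψ v = 0) ∧
  ∀ i, 1 ≤ i → i ≤ d →
    (∀ v : degreeLE K (d : ℕ), (v : K[X]) = tau θ i →
      (Ψ v : K[X]) ∈ Submodule.span K {tau θ (i - 1)}) ∧
    (∀ v : degreeLE K (d : ℕ), (v : K[X]) = rho d θ i →
      (Ψ v : K[X]) ∈ Submodule.span K {rho d θ (i - 1)})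

section
variable {K : Type*} [Field K]

noncomputable def PP (β γ r c1 c0 : K) : ℕ → K[X]
  | 0 => 0
  | 1 => 1
  | n + 2 => C β * X * PP β γ r c1 c0 (n + 1) - X ^ 2 * PP β γ r c1 c0 n
      + C γ * (X * PP β γ r c1 c0 n + PP β γ r c1 c0 (n + 1)) + C r * PP β γ r c1 c0 n
      + C c1 * X ^ (n + 1) + C c0 * X ^ n

noncomputable def Ps (β γ r c1 c0 : K) : K[X] →ₗ[K] K[X] :=
  (basisMonomials K).constr K (PP β γ r c1 c0)

lemma Ps_pow (β γ r c1 c0 : K) (n : ℕ) : Ps β γ r c1 c0 (X ^ n) = PP β γ r c1 c0 n := by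
  have h : (X ^ n : K[X]) = basisMonomials K n := by
    simp [coe_basisMonomials, monomial_one_right_eq_X_pow]
  rw [h, Ps, Module.Basis.constr_basis]

lemma Ps_C (β γ r c1 c0 a : K) (p : K[X]) :
    Ps β γ r c1 c0 (C a * p) = C a * Ps β γ r c1 c0 p := by
  rw [← smul_eq_C_mul, ← smul_eq_C_mul, map_smul]

lemma Ps_rel (β γ r c1 c0 : K) (p : K[X]) :
    Ps β γ r c1 c0 (X ^ 2 * p) = C β * X * Ps β γ r c1 c0 (X * p) - X ^ 2 * Ps β γ r c1 c0 p
      + C γ * (X * Ps β γ r c1 c0 p + Ps β γ r c1 c0 (X * p)) + C r * Ps β γ r c1 c0 p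
      + C c1 * (X * p) + C c0 * p := by
  induction p using Polynomial.induction_on' with
  | add p q hp hq =>
    simp only [mul_add, map_add, hp, hq]; ring
  | monomial n a =>
    rw [← C_mul_X_pow_eq_monomial]
    have e1 : (X ^ 2 * (C a * X ^ n) : K[X]) = C a * X ^ (n + 2) := by ring
    have e2 : (X * (C a * X ^ n) : K[X]) = C a * X ^ (n + 1) := by ring
    rw [e1, e2, Ps_C, Ps_C, Ps_C, Ps_pow, Ps_pow, Ps_pow, PP]
    ring

lemma PP_deg (β γ r c1 c0 : K) : ∀ n : ℕ, (PP β γ r c1 c0 n).natDegree ≤ n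
  | 0 => by simp [PP]
  | 1 => by simp [PP]
  | n + 2 => by
    have h0 := PP_deg β γ r c1 c0 n
    have h1 := PP_deg β γ r c1 c0 (n + 1)
    rw [PP]
    generalize PP β γ r c1 c0 n = p at *
    generalize PP β γ r c1 c0 (n + 1) = q at *
    compute_degree
    all_goals omega

lemma Ps_mem (β γ r c1 c0 : K) (d : ℕ) (p : K[X]) (hp : p ∈ degreeLE K (d : ℕ)) :
    Ps β γ r c1 c0 p ∈ degreeLE K (d : ℕ) := by
  rw [mem_degreeLE] at hp
  have hn : p.natDegree ≤ d := natDegree_le_of_degree_le hp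
  rw [p.as_sum_range_C_mul_X_pow' (Nat.lt_succ_of_le hn), map_sum]
  refine Submodule.sum_mem _ fun i hi => ?_
  rw [Ps_C, Ps_pow, ← smul_eq_C_mul]
  refine Submodule.smul_mem _ _ ?_
  rw [mem_degreeLE]
  refine degree_le_of_natDegree_le ((PP_deg _ _ _ _ _ i).trans ?_)
  have := Finset.mem_range.1 hi
  omega

def rec2 (β γ a b : K) : ℕ → K
  | 0 => a
  | 1 => b
  | n + 2 => β * rec2 β γ a b (n + 1) - rec2 β γ a b n + γ

lemma invA (β γ : K) (u : ℕ → K) (d : ℕ)
    (hu : ∀ i ≤ d, u (i + 2) = β * u (i + 1) - u i + γ) (i : ℕ) (hi : i ≤ d + 1) :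
    u (i + 1) ^ 2 - β * u (i + 1) * u i + u i ^ 2 - γ * (u i + u (i + 1)) =
      u 1 ^ 2 - β * u 1 * u 0 + u 0 ^ 2 - γ * (u 0 + u 1) := by
  induction i with
  | zero => rfl
  | succ i ih =>
    rw [← ih (by omega), hu i (by omega)]; ring

lemma invC (β γ c1 : K) (u v : ℕ → K) (d : ℕ)
    (hu : ∀ i ≤ d, u (i + 2) = β * u (i + 1) - u i + γ)
    (h0 : v 0 = 0) (h1 : v 1 = 1) (hv : ∀ i, v (i + 2) = β * v (i + 1) - v i + c1)
    (i : ℕ) (hi : i ≤ d) :
    v (i + 1) * (u (i + 1) - u i) + v i * (u (i + 1) - u (i + 2)) =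
      c1 * u (i + 1) + (u 1 - u 0 - c1 * u 1) := by
  induction i with
  | zero => simp [h0, h1]
  | succ i ih =>
    have e := ih (by omega)
    have e1 := hu i (by omega)
    have e2 := hu (i + 1) (by omega)
    rw [hv i, e2]
    linear_combination e + (v (i + 1)) * e1

lemma tau_succ (θ : ℕ → K) (i : ℕ) : tau θ (i + 1) = tau θ i * (X - C (θ i)) := by
  simp [tau, Finset.prod_range_succ]

lemma main (β γ r c1 c0 : K) (u v : ℕ → K) (d : ℕ)
    (hu : ∀ i ≤ d, u (i + 2) = β * u (i + 1) - u i + γ)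
    (h0 : v 0 = 0) (h1 : v 1 = 1) (hv : ∀ i, v (i + 2) = β * v (i + 1) - v i + c1)
    (hr : r = u 1 ^ 2 - β * u 1 * u 0 + u 0 ^ 2 - γ * (u 0 + u 1))
    (hc : c0 = u 1 - u 0 - c1 * u 1) (i : ℕ) (hi : i ≤ d) :
    Ps β γ r c1 c0 (tau (fun h => u (h + 1)) i) * (X - C (u i)) =
        C (v i) * tau (fun h => u (h + 1)) i ∧
      Ps β γ r c1 c0 (tau (fun h => u (h + 1)) (i + 1)) =
        C (v (i + 1)) * tau (fun h => u (h + 1)) i := by
  induction i with
  | zero =>
    have a0 : Ps β γ r c1 c0 1 = 0 := by simpa [PP] using Ps_pow β γ r c1 c0 0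
    have a1 : Ps β γ r c1 c0 X = 1 := by simpa [PP] using Ps_pow β γ r c1 c0 1
    have a2 : Ps β γ r c1 c0 (C (u 1)) = 0 := by
      simpa [a0] using Ps_C β γ r c1 c0 (u 1) 1
    constructor
    · simp [tau, a0, h0]
    · simp [tau, a1, a2, h1]
  | succ i ih =>
    obtain ⟨e0, e1⟩ := ih (by omega)
    constructor
    · rw [e1, tau_succ]; ring
    · set t := tau (fun h => u (h + 1)) i with ht
      have t1 : tau (fun h => u (h + 1)) (i + 1) = X * t - C (u (i + 1)) * t := by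
        rw [tau_succ]; ring
      have t2 : tau (fun h => u (h + 1)) (i + 1 + 1) =
          X ^ 2 * t - C (u (i + 1) + u (i + 2)) * (X * t) + C (u (i + 1) * u (i + 2)) * t := by
        rw [tau_succ, t1]; simp only [map_add, map_mul]; ring
      rw [t1, map_sub, Ps_C] at e1
      have A := invA β γ u d hu i (by omega)
      have Cc := invC β γ c1 u v d hu h0 h1 hv i (by omega)
      have U := hu i (by omega)
      rw [← hr] at A
      rw [← hc] at Cc
      have A' := congrArg (C : K → K[X]) A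
      have C' := congrArg (C : K → K[X]) Cc
      have U' := congrArg (C : K → K[X]) U
      have V' := congrArg (C : K → K[X]) (hv i)
      simp only [map_add, map_sub, map_mul, map_pow] at A' C' U' V'
      rw [t2, t1, map_add, map_sub, Ps_C, Ps_C, Ps_rel]
      simp only [map_add, map_mul]
      rw [V']
      have e2 : Ps β γ r c1 c0 (X * t) = C (v (i + 1)) * t + C (u (i + 1)) * Ps β γ r c1 c0 t := by
        linear_combination e1
      rw [e2, ← A']
      have hc0 : (C c0 : K[X]) = C (v (i + 1)) * (C (u (i + 1)) - C (u i)) +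
          C (v i) * (C (u (i + 1)) - C (u (i + 2))) - C c1 * C (u (i + 1)) := by
        linear_combination -C'
      rw [hc0, U']
      linear_combination (-(X : K[X]) + C β * C (u (i + 1)) - C (u i) + C γ) * e0
end

theorem result (K : Type*) [Field K] (d : ℕ) (hd : 1 ≤ d) (θ : ℕ → K)
    (hθ : ∀ i j, i ≤ d → j ≤ d → θ i = θ j → i = j)
    (hs : ∀ i j, 2 ≤ i → i ≤ d - 1 → 2 ≤ j → j ≤ d - 1 →
      (θ (i - 2) - θ (i + 1)) * (θ (i - 1) - θ i)⁻¹ =
        (θ (j - 2) - θ (j + 1)) * (θ (j - 1) - θ j)⁻¹) :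
    ∃ Ψ : degreeLE K (d : ℕ) →ₗ[K] degreeLE K (d : ℕ), Ψ ≠ 0 ∧ Lowering d θ Ψ := by
  -- the three-term recurrence
  obtain ⟨β, γ, hrec⟩ : ∃ β γ : K, ∀ i, i + 2 ≤ d → θ (i + 2) = β * θ (i + 1) - θ i + γ := by
    refine ⟨(θ 0 - θ 3) * (θ 1 - θ 2)⁻¹ - 1,
      θ 2 - ((θ 0 - θ 3) * (θ 1 - θ 2)⁻¹ - 1) * θ 1 + θ 0, ?_⟩
    intro i hi
    induction i with
    | zero => ring
    | succ i ih =>
      have e := ih (by omega)
      have s := hs (i + 2) 2 (by omega) (by omega) (by omega) (by omega)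
      have n1 : θ (i + 1) - θ (i + 2) ≠ 0 := by
        intro h
        have := hθ (i + 1) (i + 2) (by omega) (by omega) (sub_eq_zero.1 h)
        omega
      simp only [show i + 2 - 2 = i by omega, show i + 2 - 1 = i + 1 by omega,
        show 2 - 2 = 0 by rfl, show 2 - 1 = 1 by rfl, show 2 + 1 = 3 by rfl] at s
      rw [← s] at e ⊢
      have s2 : (θ i - θ (i + 2 + 1)) * (θ (i + 1) - θ (i + 2))⁻¹ * (θ (i + 1) - θ (i + 2)) =
          θ i - θ (i + 2 + 1) := by field_simp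
      have q : i + 1 + 2 = i + 2 + 1 := by omega
      have q2 : i + 1 + 1 = i + 2 := by omega
      rw [q, q2]
      linear_combination e + s2
  set s : ℕ → K := rec2 β γ (β * θ 0 - θ 1 + γ) (θ 0) with hsdef
  have s2 : ∀ i, s (i + 2) = β * s (i + 1) - s i + γ := fun i => by simp [hsdef, rec2]
  have sθ : ∀ i, i + 1 ≤ d → s (i + 1) = θ i ∧ s (i + 2) = θ (i + 1) := by
    intro i hi
    induction i with
    | zero =>
      refine ⟨rfl, ?_⟩
      rw [s2]; simp only [hsdef, rec2]; ring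
    | succ i ih =>
      obtain ⟨a, b⟩ := ih (by omega)
      refine ⟨b, ?_⟩
      rw [s2, b, a, hrec i (by omega)]
  have sθ' : ∀ i, i ≤ d → s (i + 1) = θ i := by
    intro i hi
    rcases i with _ | i
    · exact (sθ 0 (by omega)).1
    · exact (sθ i (by omega)).2
  have n0 : θ 0 - θ d ≠ 0 := by
    intro h
    have := hθ 0 d (by omega) le_rfl (sub_eq_zero.1 h)
    omega
  set c1 : K := (θ 0 - θ d - (s 0 - s (d + 2))) * (θ 0 - θ d)⁻¹ with hc1
  have hc1' : c1 * (θ 0 - θ d) = θ 0 - θ d - (s 0 - s (d + 2)) := by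
    rw [hc1]; field_simp
  set v : ℕ → K := rec2 β c1 0 1 with hvdef
  have v2 : ∀ i, v (i + 2) = β * v (i + 1) - v i + c1 := fun i => by simp [hvdef, rec2]
  set r : K := s 1 ^ 2 - β * s 1 * s 0 + s 0 ^ 2 - γ * (s 0 + s 1) with hr
  set c0 : K := s 1 - s 0 - c1 * s 1 with hc0
  have M1 := main β γ r c1 c0 s v d (fun i _ => s2 i) rfl rfl v2 hr hc0
  have M2 := main β γ r c1 c0 (fun i => s (d + 2 - i)) v d (fun i hi => by
      have := s2 (d - i)
      simp only [show d + 2 - (i + 2) = d - i by omega, show d + 2 - (i + 1) = d - i + 1 by omega,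
        show d + 2 - i = d - i + 2 by omega]
      linear_combination this) rfl rfl v2 (by
      have := invA β γ s d (fun i _ => s2 i) (d + 1) le_rfl
      simp only [show d + 2 - 1 = d + 1 by omega, Nat.sub_zero]
      rw [hr, ← this]; ring) (by
      simp only [show d + 2 - 1 = d + 1 by omega, Nat.sub_zero]
      rw [hc0, sθ' 0 (by omega), sθ' d le_rfl]
      linear_combination -hc1')
  have T1 : ∀ i, i ≤ d → tau (fun h => s (h + 1)) i = tau θ i := by
    intro i hi
    refine Finset.prod_congr rfl fun h hh => ?_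
    have := Finset.mem_range.1 hh
    simp only [sθ' h (by omega)]
  have T2 : ∀ i, i ≤ d → tau (fun h => s (d + 2 - (h + 1))) i = rho d θ i := by
    intro i hi
    refine Finset.prod_congr rfl fun h hh => ?_
    have := Finset.mem_range.1 hh
    simp only [show d + 2 - (h + 1) = d - h + 1 by omega, sθ' (d - h) (by omega)]
  have a0 : Ps β γ r c1 c0 1 = 0 := by simpa [PP] using Ps_pow β γ r c1 c0 0
  have a1 : Ps β γ r c1 c0 X = 1 := by simpa [PP] using Ps_pow β γ r c1 c0 1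
  refine ⟨(Ps β γ r c1 c0).restrict (Ps_mem β γ r c1 c0 d), ?_, ?_, ?_, ?_⟩
  · intro h
    have hX : (X : K[X]) ∈ degreeLE K (d : ℕ) := by
      rw [mem_degreeLE, degree_X]; exact_mod_cast hd
    have := congrArg (fun f => ((f ⟨X, hX⟩ : degreeLE K (d : ℕ)) : K[X])) h
    simp [a1] at this
  · intro w hw
    apply Subtype.ext
    simp [hw, tau, a0]
  · intro w hw
    apply Subtype.ext
    simp [hw, rho, a0]
  · intro i h1 hi
    obtain ⟨j, rfl⟩ : ∃ j, i = j + 1 := ⟨i - 1, by omega⟩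
    constructor
    · intro w hw
      have := (M1 j (by omega)).2
      rw [T1 _ hi, T1 _ (by omega), ← hw, ← smul_eq_C_mul] at this
      rw [LinearMap.coe_restrict_apply, this]
      exact Submodule.smul_mem _ _ (Submodule.mem_span_singleton_self _)
    · intro w hw
      have := (M2 j (by omega)).2
      rw [T2 _ hi, T2 _ (by omega), ← hw, ← smul_eq_C_mul] at this
      rw [LinearMap.coe_restrict_apply, this]
      exact Submodule.smul_mem _ _ (Submodule.mem_span_singleton_self _)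

end Pool.Agent.Results.MP_87e037_al.Yes
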